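import Pool.Agent.N886.BM.Core
import Pool.Agent.N28.BM.Deep

/-!
# Solutions of the difference equations for `K = ℚ_p`
-/

open Finset

namespace Pool.Agent.N886.BM

open Pool.Agent.N28.BM

variable {n : ℕ}

/-- the complete symmetric polynomial -/
noncomputable def hs (n m : ℕ) : MvPolynomial (Fin (n + 1)) ℤ :=
  ∑ v ∈ piAntidiag (univ : Finset (Fin (n + 1))) m,
    MvPolynomial.monomial (Finsupp.equivFunOnFinite.symm v) 1

lemma hs_sym (m : ℕ) : (hs n m).IsSymmetric := by
  classical
  intro e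
  unfold hs
  rw [map_sum]
  refine Finset.sum_bij' (fun v _ => v ∘ e.symm) (fun v _ => v ∘ e) ?_ ?_ ?_ ?_ ?_
  · intro v hv
    rw [Finset.mem_piAntidiag] at hv ⊢
    refine ⟨?_, fun i _ => Finset.mem_univ i⟩
    rw [← hv.1]
    exact Equiv.sum_comp e.symm v
  · intro v hv
    rw [Finset.mem_piAntidiag] at hv ⊢
    refine ⟨?_, fun i _ => Finset.mem_univ i⟩
    rw [← hv.1]
    exact Equiv.sum_comp e v
  · intro v _
    funext i
    simp
  · intro v _
    funext i
    simp
  · intro v _
    have key : Finsupp.mapDomain e (Finsupp.equivFunOnFinite.symm v) =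
        Finsupp.equivFunOnFinite.symm (v ∘ e.symm) := by
      ext i
      rw [Finsupp.mapDomain_equiv_apply]
      simp
    rw [MvPolynomial.rename_monomial, key]

lemma prod_pow_single (q : ℕ) (v : Fin (n + 1) → ℕ) (I : Finset (Fin (n + 1))) :
    ∏ i ∈ I, ((AddMonoidAlgebra.single (q • un () i) (1 : ℤ) : P Unit (n + 1)) ^ (v i)) =
      AddMonoidAlgebra.single (∑ i ∈ I, v i • (q • un () i)) 1 := by
  classical
  induction I using Finset.induction_on with
  | empty => simp [AddMonoidAlgebra.one_def]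
  | insert a s ha ih =>
    rw [Finset.prod_insert ha, Finset.sum_insert ha, ih, AddMonoidAlgebra.single_pow, one_pow,
      AddMonoidAlgebra.single_mul_single, one_mul]

lemma th_mon (q : ℕ) (v : Fin (n + 1) → ℕ) :
    (th () q (MvPolynomial.monomial (Finsupp.equivFunOnFinite.symm v) 1) : P Unit (n + 1)) =
      AddMonoidAlgebra.single (fun _ i => (q : ℤ) * (v i : ℤ)) 1 := by
  unfold th
  rw [MvPolynomial.aeval_monomial, map_one, one_mul, Finsupp.prod_fintype _ _ (by simp)]
  simp only [Finsupp.equivFunOnFinite_symm_apply_apply]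
  rw [prod_pow_single]
  congr 1
  funext u j
  rw [Finset.sum_apply, Finset.sum_apply, Finset.sum_eq_single j]
  · simp [un]
    ring
  · intro i _ hij
    simp [un, Pi.single_eq_of_ne hij.symm]
  · simp

lemma LF_hs (Z : Wt Unit (n + 1) → ℤ) (h : Fin (n + 1) → ℤ) (q m : ℕ) :
    LF Z (AddMonoidAlgebra.single (fun _ => h) 1 * th () q (hs n m)) =
      ∑ v ∈ piAntidiag (univ : Finset (Fin (n + 1))) m,
        Z (fun _ i => h i + (q : ℤ) * (v i : ℤ)) := by
  unfold hs
  rw [map_sum, Finset.mul_sum, map_sum]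
  refine Finset.sum_congr rfl fun v _ => ?_
  rw [th_mon, AddMonoidAlgebra.single_mul_single, one_mul, LF_single, one_smul]
  rfl

lemma shift_pow (Z : Wt Unit (n + 1) → ℤ) (p : ℕ)
    (hE : ∀ r, 1 ≤ r → r ≤ n + 1 → ∀ h, shift Z h () p r = shift Z h () 1 r) (a : ℕ) :
    ∀ r h, shift Z h () ((p ^ a : ℕ) : ℤ) r = shift Z h () 1 r := by
  induction a with
  | zero => intro r h; simp
  | succ a ih =>
    intro r h
    have h1 := rel_mul Z () () p hE (p ^ a) r h
    rw [ih r h] at h1
    rw [← h1]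
    congr 2
    ring

lemma com (Z : Wt Unit (n + 1) → ℤ) (p : ℕ)
    (hE : ∀ r, 1 ≤ r → r ≤ n + 1 → ∀ h, shift Z h () p r = shift Z h () 1 r) (a : ℕ)
    (h : Fin (n + 1) → ℤ) (m : ℕ) :
    ∑ v ∈ piAntidiag (univ : Finset (Fin (n + 1))) m,
        Z (fun _ i => h i + ((p ^ a : ℕ) : ℤ) * (v i : ℤ)) =
      ∑ v ∈ piAntidiag (univ : Finset (Fin (n + 1))) m, Z (fun _ i => h i + (v i : ℤ)) := by
  have h1 := rel_sym Z () () (p ^ a) (fun r _ _ h => shift_pow Z p hE a r h) (hs n m) (hs_sym m)
  have h2 := h1 (AddMonoidAlgebra.single (fun _ => h) 1)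
  rw [mul_sub, map_sub, LF_hs, LF_hs, sub_eq_zero] at h2
  rw [h2]
  refine Finset.sum_congr rfl fun v _ => ?_
  congr 1
  funext _ i
  simp

lemma shift_one (Z : Wt Unit (n + 1) → ℤ) (h : Fin (n + 1) → ℤ) (m : ℤ) :
    shift Z (fun _ => h) () m 1 = ∑ i, Z (fun _ j => h j + if j = i then m else 0) := by
  unfold shift
  rw [Finset.powersetCard_one, Finset.sum_map]
  refine Finset.sum_congr rfl fun i _ => ?_
  congr 1
  funext _ j
  simp [inc]

lemma shift_all (Z : Wt Unit (n + 1) → ℤ) (h : Fin (n + 1) → ℤ) (m : ℤ) :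
    shift Z (fun _ => h) () m (n + 1) = Z (fun _ j => h j + m) := by
  unfold shift
  have : (univ : Finset (Fin (n + 1))).powersetCard (n + 1) = {univ} := by
    have h1 := Finset.powersetCard_self (univ : Finset (Fin (n + 1)))
    rwa [Finset.card_univ, Fintype.card_fin] at h1
  rw [this, Finset.sum_singleton]
  congr 1
  funext _ j
  simp [inc]

/-- the only map -/
def kap : Unit → ZMod 1 := fun _ => 0

lemma kap_surj : Function.Surjective kap := fun _ => ⟨(), Subsingleton.elim _ _⟩

section Thm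

variable {k F : Type} [Field k] [Fintype k] [Field F] [IsAlgClosed F] (ι : k →+* F) {p : ℕ}
  [hp : Fact p.Prime] [CharP F p] (hk : Fintype.card k = p)
  (t : Fˣ →* ℂˣ) (ht : Function.Injective t)
  (s : Wt Unit (n + 1) → P Unit (n + 1)) (hs' : IsWeyl s)

include ι hk ht hs' in
/-- Non-negative solutions of the difference equations satisfy the hypotheses of `vanish`. -/
lemma toSol (Z : Wt Unit (n + 1) → ℤ) (hZ : Alt Z) (hE : Equations kap p Z)
    (hpos : ∀ h, Dom h → 0 ≤ Z h) (a : ℕ) :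
    Sol p (p ^ a) (ordGL k (n + 1)) (ordW Unit (n + 1)) (cf (ordW Unit (n + 1)))
      (fun h : Fin (n + 1) → ℤ => Z (fun _ => h)) := by
  have hE1 : ∀ r, 1 ≤ r → r ≤ n + 1 → ∀ h, shift Z h () p r = shift Z h () 1 r :=
    fun r h1 h2 h => hE () () (Subsingleton.elim _ _) r h1 h2 h
  refine ⟨⟨?_, ?_⟩, ?_, ?_, ?_, ?_, ?_⟩
  · intro h i j hij
    have h1 := hZ.perm (fun _ => h) () (Equiv.swap i j)
    rw [Equiv.Perm.sign_swap hij] at h1
    have h2 : pw (fun _ => h) () (Equiv.swap i j) =
        (fun _ => h ∘ Equiv.swap i j : Wt Unit (n + 1)) := by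
      funext u
      simp [pw]
    rw [h2] at h1
    rw [h1]
    simp
  · intro h i j hij he
    exact hZ.zero (fun _ => h) () i j hij he
  · intro h hh
    exact hpos _ (fun _ => hh)
  · intro h
    have h1 := hE1 1 le_rfl (by omega) (fun _ => h)
    rw [shift_one, shift_one] at h1
    exact h1
  · intro h
    have h1 := hE1 (n + 1) (by omega) le_rfl (fun _ => h)
    rw [shift_all, shift_all] at h1
    exact h1
  · intro h m
    exact com Z p hE1 a h m
  · intro h v
    have h1 := quasi_polynomial ι (f := 1) (by rw [pow_one]; exact hk) one_ne_zero kap kap_surj t ht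
      s hs' Z hZ hE (fun _ => h) (fun _ => v)
    rw [← h1]
    refine Finset.sum_congr rfl fun j _ => ?_
    rw [smul_eq_mul]
    congr 2

end Thm

end Pool.Agent.N886.BM
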