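import Pool.Agent.N886.BM.Line

/-!
# Non-negative solutions of the difference equations: one zero implies many zeros
-/

open Finset

namespace Pool.Agent.N886.BM

/-- Non-negative alternating solutions of the difference equations, with their recurrences. -/
structure Sol {n : ℕ} (p q N M : ℕ) (c : ℕ → ℤ) (Y : (Fin (n + 1) → ℤ) → ℤ) : Prop where
  al : Al Y
  pos : ∀ h, StrictAnti h → 0 ≤ Y h
  one : ∀ h : Fin (n + 1) → ℤ, ∑ i, Y (fun j => h j + if j = i then (p : ℤ) else 0) =
    ∑ i, Y (fun j => h j + if j = i then 1 else 0)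
  all : ∀ h : Fin (n + 1) → ℤ, Y (fun j => h j + p) = Y (fun j => h j + 1)
  com : ∀ (h : Fin (n + 1) → ℤ) (m : ℕ),
    ∑ v ∈ piAntidiag (univ : Finset (Fin (n + 1))) m, Y (fun i => h i + (q : ℤ) * (v i : ℤ)) =
      ∑ v ∈ piAntidiag (univ : Finset (Fin (n + 1))) m, Y (fun i => h i + (v i : ℤ))
  recu : ∀ h v : Fin (n + 1) → ℤ,
    ∑ j ∈ range (M + 1), c j * Y (fun i => h i + ((j : ℤ) * N) * v i) = 0

variable {n : ℕ} {p q N M : ℕ} {c : ℕ → ℤ} {Y : (Fin (n + 1) → ℤ) → ℤ}

/-- The solution vanishes on a simplex. -/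
lemma vanish_simplex (hS : Sol p q N M c Y) (m : ℕ) (h2 : m ≤ q)
    (hz : Y (fun i => (q : ℤ) * (ro n i + if i = 0 then (m : ℤ) else 0)) = 0)
    (v : Fin (n + 1) → ℕ) (hv : ∑ i, v i = m) : Y (fun i => (q : ℤ) * ro n i + (v i : ℤ)) = 0 := by
  classical
  have hY' : Al (fun h : Fin (n + 1) → ℤ => Y (fun i => (q : ℤ) * h i)) := by
    refine ⟨fun h i j hij => ?_, fun h i j hij he => ?_⟩
    · exact hS.al.swap (fun i => (q : ℤ) * h i) i j hij
    · apply hS.al.zero _ i j hij
      rw [he]
  have e1 := simplex _ hY' m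
  simp only at e1
  rw [hz] at e1
  have e2 := hS.com (fun i => (q : ℤ) * ro n i) m
  have e3 : ∑ v ∈ piAntidiag (univ : Finset (Fin (n + 1))) m,
      Y (fun i => (q : ℤ) * ro n i + (q : ℤ) * (v i : ℤ)) = 0 := by
    rw [← e1]
    refine Finset.sum_congr rfl fun v _ => ?_
    congr 1
    funext i
    ring
  rw [e3] at e2
  have hnn : ∀ v ∈ piAntidiag (univ : Finset (Fin (n + 1))) m,
      0 ≤ Y (fun i => (q : ℤ) * ro n i + (v i : ℤ)) := by
    intro v hv
    rw [Finset.mem_piAntidiag] at hv
    have hle : ∀ i, v i ≤ m := by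
      intro i
      rw [← hv.1]
      exact Finset.single_le_sum (f := v) (fun _ _ => Nat.zero_le _) (Finset.mem_univ i)
    have hgap : ∀ i : Fin n, (q : ℤ) * ro n i.succ + (v i.succ : ℤ) ≤
        (q : ℤ) * ro n i.castSucc + (v i.castSucc : ℤ) := by
      intro i
      have h1 : ro n i.castSucc = ro n i.succ + 1 := by
        simp only [ro, Fin.val_castSucc, Fin.val_succ]
        push_cast
        ring
      rw [h1]
      have h3 : ((v i.succ : ℕ) : ℤ) ≤ q := by exact_mod_cast (hle i.succ).trans h2
      have h4 : (0 : ℤ) ≤ (v i.castSucc : ℤ) := Int.natCast_nonneg _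
      linarith
    by_cases hs : ∀ i : Fin n, (q : ℤ) * ro n i.succ + (v i.succ : ℤ) <
        (q : ℤ) * ro n i.castSucc + (v i.castSucc : ℤ)
    · apply hS.pos
      rw [Fin.strictAnti_iff_succ_lt]
      exact hs
    · push Not at hs
      obtain ⟨i, hi⟩ := hs
      apply le_of_eq
      symm
      apply hS.al.zero _ i.castSucc i.succ (Fin.castSucc_lt_succ).ne
      exact le_antisymm hi (hgap i)
  exact (Finset.sum_eq_zero_iff_of_nonneg hnn).1 e2.symm v
    (Finset.mem_piAntidiag.mpr ⟨hv, fun i _ => Finset.mem_univ i⟩)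

/-- The solution vanishes on a hyperplane. -/
lemma vanish_plane (hS : Sol p q N M c Y) (hN : 1 ≤ N) (c0 : c 0 ≠ 0) (cM : c M ≠ 0) (m : ℕ)
    (h1 : n * (N * M) ≤ m) (h2 : m ≤ q)
    (hz : Y (fun i => (q : ℤ) * (ro n i + if i = 0 then (m : ℤ) else 0)) = 0) :
    ∀ h : Fin (n + 1) → ℤ, ∑ i, h i = (q : ℤ) * ∑ i, ro n i + m → Y h = 0 := by
  have hN0 : (0 : ℤ) < N := by exact_mod_cast hN
  have key : ∀ k : ℕ, k ≤ n → ∀ h : Fin (n + 1) → ℤ, ∑ i, h i = (q : ℤ) * ∑ i, ro n i + m →
      (∀ i : Fin (n + 1), k ≤ i.val → i.val < n →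
        (q : ℤ) * ro n i ≤ h i ∧ h i < (q : ℤ) * ro n i + N * M) → Y h = 0 := by
    intro k
    induction k with
    | zero =>
      intro _ h hs hb
      have hlast : (q : ℤ) * ro n (Fin.last n) = 0 := by
        simp [ro]
      have hnn : ∀ i, 0 ≤ h i - (q : ℤ) * ro n i := by
        intro i
        by_cases hi : i.val < n
        · have := (hb i (Nat.zero_le _) hi).1
          linarith
        · have hil : i = Fin.last n := by
            apply Fin.ext
            have := i.2
            simp only [Fin.val_last]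
            omega
          rw [hil, hlast, sub_zero]
          have e1 : ∑ i, (h i - (q : ℤ) * ro n i) = m := by
            rw [Finset.sum_sub_distrib, hs, Finset.mul_sum]
            ring
          rw [Fin.sum_univ_castSucc, hlast, sub_zero] at e1
          have e2 : ∑ i : Fin n, (h i.castSucc - (q : ℤ) * ro n i.castSucc) ≤
              ∑ _i : Fin n, (N * M : ℤ) := by
            refine Finset.sum_le_sum fun i _ => ?_
            have := (hb i.castSucc (Nat.zero_le _) (by simp)).2
            linarith
          rw [Finset.sum_const, Finset.card_univ, Fintype.card_fin, nsmul_eq_mul] at e2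
          have e3 : ((n * (N * M) : ℕ) : ℤ) ≤ (m : ℤ) := by exact_mod_cast h1
          push_cast at e3
          linarith
      have e4 := vanish_simplex hS m h2 hz (fun i => (h i - (q : ℤ) * ro n i).toNat) (by
        have : ((∑ i, (h i - (q : ℤ) * ro n i).toNat : ℕ) : ℤ) = m := by
          have e5 : ∀ i, (((h i - (q : ℤ) * ro n i).toNat : ℕ) : ℤ) = h i - (q : ℤ) * ro n i :=
            fun i => Int.toNat_of_nonneg (hnn i)
          rw [Nat.cast_sum]
          simp only [e5]
          rw [Finset.sum_sub_distrib, hs, Finset.mul_sum]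
          ring
        exact_mod_cast this)
      rw [← e4]
      congr 1
      funext i
      rw [Int.toNat_of_nonneg (hnn i)]
      ring
    | succ k ih =>
      intro hk h hs hb
      set a : Fin (n + 1) := ⟨k, by omega⟩ with ha
      have hal : a ≠ Fin.last n := by
        intro hh
        rw [Fin.ext_iff] at hh
        have h3 : (a : ℕ) = k := rfl
        rw [h3, Fin.val_last] at hh
        omega
      set v : Fin (n + 1) → ℤ := fun i => if i = a then 1 else if i = Fin.last n then -1 else 0
        with hv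
      have hva : v a = 1 := by simp [hv]
      have hvo : ∀ i : Fin (n + 1), i ≠ a → i.val < n → v i = 0 := by
        intro i h3 h4
        have : i ≠ Fin.last n := by
          intro h5
          rw [h5] at h4
          simp at h4
        simp [hv, h3, this]
      have hvs : ∑ i, v i = 0 := by
        rw [← Finset.add_sum_erase univ v (Finset.mem_univ a),
          ← Finset.add_sum_erase (univ.erase a) v
            (Finset.mem_erase.mpr ⟨hal.symm, Finset.mem_univ _⟩)]
        rw [Finset.sum_eq_zero]
        · rw [hva]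
          simp [hv, hal.symm]
        · intro i hi
          rw [Finset.mem_erase, Finset.mem_erase] at hi
          simp [hv, hi.1, hi.2.1]
      set g : ℤ → ℤ := fun x => Y (fun i => h i + (x * N) * v i) with hg
      set a₀ : ℤ := -((h a - (q : ℤ) * ro n a) / N) with ha0
      have hmod : h a + a₀ * N = (q : ℤ) * ro n a + (h a - (q : ℤ) * ro n a) % N := by
        rw [Int.emod_def, ha0]
        ring
      have hm1 := Int.emod_nonneg (h a - (q : ℤ) * ro n a) hN0.ne'
      have hm2 := Int.emod_lt_of_pos (h a - (q : ℤ) * ro n a) hN0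
      have hgz := line M c c0 cM g (by
        intro x
        have e1 := hS.recu (fun i => h i + (x * N) * v i) v
        rw [← e1]
        refine Finset.sum_congr rfl fun j _ => ?_
        simp only [hg]
        congr 2
        funext i
        ring) a₀ (by
        intro j hj
        simp only [hg]
        apply ih (by omega)
        · rw [Finset.sum_add_distrib, ← Finset.mul_sum, hvs, mul_zero, add_zero, hs]
        · intro i hi1 hi2
          by_cases hia : i = a
          · rw [hia, hva, mul_one]
            have hjM : (j : ℤ) + 1 ≤ M := by exact_mod_cast hj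
            have hj0 : (0 : ℤ) ≤ j := Int.natCast_nonneg j
            constructor
            · nlinarith
            · nlinarith
          · rw [hvo i hia hi2, mul_zero, add_zero]
            apply hb i _ hi2
            have : i.val ≠ k := fun h3 => hia (Fin.ext h3)
            omega)
      have := hgz 0
      simpa [hg] using this
  intro h hs
  exact key n le_rfl h hs (fun i h3 h4 => absurd h4 (by omega))

/-- From one hyperplane to the next one. -/
lemma vanish_next (hS : Sol p q N M c Y) (hN : 1 ≤ N) (c0 : c 0 ≠ 0) (cM : c M ≠ 0) (s : ℤ)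
    (hV : ∀ h : Fin (n + 1) → ℤ, ∑ i, h i = s → Y h = 0) :
    ∀ h : Fin (n + 1) → ℤ, ∑ i, h i = s + (p - 1) → Y h = 0 := by
  have hN0 : (1 : ℤ) ≤ N := by exact_mod_cast hN
  intro h' hs'
  set w : Fin (n + 1) → ℤ := fun i => (n : ℤ) - 2 * i.val with hw
  have hws : ∑ i, w i = 0 := by
    simp only [hw]
    rw [Finset.sum_sub_distrib, ← Finset.mul_sum, Finset.sum_const, Finset.card_univ,
      Fintype.card_fin, nsmul_eq_mul]
    have e1 : (∑ i : Fin (n + 1), (i.val : ℤ)) * 2 = (n + 1) * n := by
      have := Finset.sum_range_id_mul_two (n + 1)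
      rw [← Fin.sum_univ_eq_sum_range (fun i => i)] at this
      simp only [Nat.add_sub_cancel] at this
      exact_mod_cast this
    push_cast
    linarith
  set B : ℤ := ∑ i, |h' i| with hB
  have hBi : ∀ i, |h' i| ≤ B := fun i =>
    Finset.single_le_sum (f := fun i => |h' i|) (fun i _ => abs_nonneg _) (Finset.mem_univ i)
  have hB0 : 0 ≤ B := Finset.sum_nonneg fun i _ => abs_nonneg _
  have deep : ∀ x : ℤ, B + p + 1 ≤ x → Y (fun i => h' i + (x * N) * w i) = 0 := by
    intro x hx
    set h'' : Fin (n + 1) → ℤ := fun i => h' i + (x * N) * w i with hh''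
    set h : Fin (n + 1) → ℤ := fun i => h'' i - if i = 0 then (p : ℤ) else 0 with hh
    have hp0 : (0 : ℤ) ≤ p := Int.natCast_nonneg p
    have hgap : ∀ i : Fin n, h'' i.succ + (2 * p + 1) ≤ h'' i.castSucc := by
      intro i
      have h1 := abs_le.mp (hBi i.succ)
      have h2 := abs_le.mp (hBi i.castSucc)
      simp only [hh'', hw, Fin.val_castSucc, Fin.val_succ]
      push_cast
      have h3 : B + p + 1 ≤ x * N := by nlinarith
      nlinarith
    have hsum'' : ∑ i, h'' i = s + (p - 1) := by
      simp only [hh'']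
      rw [Finset.sum_add_distrib, ← Finset.mul_sum, hws, mul_zero, add_zero, hs']
    have hsum : ∑ i, h i = s - 1 := by
      simp only [hh]
      rw [Finset.sum_sub_distrib, hsum'']
      simp
      ring
    have e1 := hS.one h
    have e2 : ∑ i, Y (fun j => h j + if j = i then 1 else 0) = 0 := by
      refine Finset.sum_eq_zero fun i _ => ?_
      apply hV
      rw [Finset.sum_add_distrib, hsum]
      simp
    rw [e2] at e1
    have hnn : ∀ i ∈ (univ : Finset (Fin (n + 1))),
        0 ≤ Y (fun j => h j + if j = i then (p : ℤ) else 0) := by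
      intro i _
      apply hS.pos
      rw [Fin.strictAnti_iff_succ_lt]
      intro j
      have h1 := hgap j
      simp only [hh]
      have b1 : (0 : ℤ) ≤ (if j.succ = 0 then (p : ℤ) else 0) := by split_ifs <;> simp
      have b2 : (if j.succ = i then (p : ℤ) else 0) ≤ p := by
        split_ifs
        · exact le_rfl
        · exact hp0
      have b3 : (if j.castSucc = 0 then (p : ℤ) else 0) ≤ p := by
        split_ifs
        · exact le_rfl
        · exact hp0
      have b4 : (0 : ℤ) ≤ (if j.castSucc = i then (p : ℤ) else 0) := by split_ifs <;> simp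
      linarith
    have e3 := (Finset.sum_eq_zero_iff_of_nonneg hnn).1 e1 0 (Finset.mem_univ 0)
    rw [← e3]
    congr 1
    funext i
    simp only [hh]
    ring
  have hgz := line M c c0 cM (fun x => Y (fun i => h' i + (x * N) * w i)) (by
    intro x
    have e1 := hS.recu (fun i => h' i + (x * N) * w i) w
    rw [← e1]
    refine Finset.sum_congr rfl fun j _ => ?_
    congr 2
    funext i
    ring) (B + p + 1) (by
      intro j _
      apply deep
      have : (0 : ℤ) ≤ j := Int.natCast_nonneg j
      linarith)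
  have := hgz 0
  simpa using this

/-- Twisting. -/
lemma vanish_prev (hS : Sol p q N M c Y) (s : ℤ)
    (hV : ∀ h : Fin (n + 1) → ℤ, ∑ i, h i = s → Y h = 0) :
    ∀ h : Fin (n + 1) → ℤ, ∑ i, h i = s - (n + 1) * (p - 1) → Y h = 0 := by
  intro h hs
  have e1 : Y (fun i => h i - 1 + p) = Y (fun i => h i - 1 + 1) := hS.all (fun i => h i - 1)
  have e2 : (fun i => h i - 1 + 1) = h := by
    funext i
    ring
  rw [e2] at e1
  rw [← e1]
  apply hV
  rw [Finset.sum_add_distrib, Finset.sum_sub_distrib, hs]
  simp only [Finset.sum_const, Finset.card_univ, Fintype.card_fin, nsmul_eq_mul]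
  push_cast
  ring

/-- **One zero implies many zeros.** -/
theorem vanish (hS : Sol p q N M c Y) (hN : 1 ≤ N) (c0 : c 0 ≠ 0) (cM : c M ≠ 0) (m : ℕ)
    (h1 : n * (N * M) ≤ m) (h2 : m ≤ q)
    (hz : Y (fun i => (q : ℤ) * (ro n i + if i = 0 then (m : ℤ) else 0)) = 0)
    (h : Fin (n + 1) → ℤ) (a : ℤ) (hs : ∑ i, h i = (q : ℤ) * ∑ i, ro n i + m + a * (p - 1)) :
    Y h = 0 := by
  have V0 := vanish_plane hS hN c0 cM m h1 h2 hz
  set s₀ : ℤ := (q : ℤ) * ∑ i, ro n i + m with hs0
  have V1 : ∀ j : ℕ, ∀ h : Fin (n + 1) → ℤ, ∑ i, h i = s₀ + j * (p - 1) → Y h = 0 := by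
    intro j
    induction j with
    | zero => intro h hh; exact V0 h (by rw [hh]; simp)
    | succ j ih =>
      intro h hh
      apply vanish_next hS hN c0 cM _ ih h
      rw [hh]
      push_cast
      ring
  have V2 : ∀ l j : ℕ, ∀ h : Fin (n + 1) → ℤ,
      ∑ i, h i = s₀ + j * (p - 1) - l * ((n + 1) * (p - 1)) → Y h = 0 := by
    intro l
    induction l with
    | zero => intro j h hh; exact V1 j h (by rw [hh]; simp)
    | succ l ih =>
      intro j h hh
      apply vanish_prev hS _ (ih j) h
      rw [hh]
      push_cast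
      ring
  have hnn : 0 ≤ a + (n + 1) * |a| := by
    have h3 := neg_abs_le a
    have h4 := abs_nonneg a
    have h5 : (0 : ℤ) ≤ n := Int.natCast_nonneg n
    nlinarith
  apply V2 a.natAbs (a + (n + 1) * |a|).toNat h
  rw [Int.toNat_of_nonneg hnn, hs, Int.natCast_natAbs]
  ring

end Pool.Agent.N886.BM
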