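import Pool.Agent.N886.BM.Bridge

/-!
# The Breuil-Mezard identity for `GL_d` over `ℚ_p`, from the inequality and the difference equations
-/

open Finset

namespace Pool.Agent.N886.BM

open Pool.Agent.N28.BM

variable {n : ℕ}

/-- the alternating extension of a function of the strictly decreasing weights -/
noncomputable def ext (X : Wt Unit (n + 1) → ℤ) (h : Wt Unit (n + 1)) : ℤ := by
  classical
  exact ∑ π : Equiv.Perm (Fin (n + 1)), (Equiv.Perm.sign π : ℤ) *
    (if StrictAnti (h () ∘ π) then X (fun _ => h () ∘ π) else 0)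

lemma ext_alt (X : Wt Unit (n + 1) → ℤ) : Alt (ext X) := by
  classical
  constructor
  · intro h u ω
    unfold ext
    have h1 : (pw h u ω) () = h () ∘ ω := by
      simp [pw]
    rw [h1, smul_eq_mul, Finset.mul_sum,
      ← Equiv.sum_comp (Equiv.mulLeft ω) (fun π : Equiv.Perm (Fin (n + 1)) =>
        (Equiv.Perm.sign ω : ℤ) * ((Equiv.Perm.sign π : ℤ) *
          (if StrictAnti (h () ∘ π) then X (fun _ => h () ∘ π) else 0)))]
    refine Finset.sum_congr rfl fun π _ => ?_
    have h2 : (h () ∘ ω) ∘ π = h () ∘ (Equiv.mulLeft ω π : Equiv.Perm (Fin (n + 1))) := by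
      funext i
      simp
    rw [h2, ← mul_assoc]
    congr 1
    rw [Equiv.coe_mulLeft, Equiv.Perm.sign_mul]
    push_cast
    rw [← mul_assoc]
    have h3 : ((Equiv.Perm.sign ω : ℤˣ) : ℤ) * ((Equiv.Perm.sign ω : ℤˣ) : ℤ) = 1 := by
      rw [← Units.val_mul, Int.units_mul_self]
      simp
    rw [h3, one_mul]
  · intro h u i j hij he
    unfold ext
    refine Finset.sum_eq_zero fun π _ => ?_
    rw [if_neg, mul_zero]
    intro hs
    apply hij
    have h1 := hs.injective
    have h2 : (h () ∘ π) (π.symm i) = (h () ∘ π) (π.symm j) := by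
      simp only [Function.comp_apply, Equiv.apply_symm_apply]
      exact he
    exact π.symm.injective (h1 h2)

lemma ext_dom (X : Wt Unit (n + 1) → ℤ) (h : Wt Unit (n + 1)) (hh : Dom h) : ext X h = X h := by
  classical
  have h0 : StrictAnti (h ()) := hh ()
  unfold ext
  rw [Finset.sum_eq_single 1]
  · have h1 : (fun _ => h () ∘ (1 : Equiv.Perm (Fin (n + 1))) : Wt Unit (n + 1)) = h := by
      funext u i
      simp
    have h2 : StrictAnti (h () ∘ (1 : Equiv.Perm (Fin (n + 1)))) := by simpa using h0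
    rw [if_pos h2, h1]
    simp
  · intro π _ hπ
    rw [if_neg, mul_zero]
    intro hs
    apply hπ
    have h1 : StrictMono π := by
      intro i j hij
      have h2 := hs hij
      exact h0.lt_iff_gt.mp h2
    have h2 : (π : Fin (n + 1) → Fin (n + 1)) = id :=
      (h1.range_inj (g := id) strictMono_id).mp (by rw [π.surjective.range_eq, Set.range_id])
    ext i
    rw [h2]
    simp
  · intro hc
    exact absurd (Finset.mem_univ _) hc

/-- The Hodge type `p ^ a (ρ + m e₁)`. -/
def hty (n p a m : ℕ) : Wt Unit (n + 1) := fun _ i =>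
  (p : ℤ) ^ a * ((n : ℤ) - i.val + if i = 0 then (m : ℤ) else 0)

lemma hty_dom (n p a m : ℕ) (hp : 1 ≤ p) : Dom (hty n p a m) := by
  intro u i j hij
  unfold hty
  have h1 : (0 : ℤ) < (p : ℤ) ^ a := by positivity
  have h2 : (i.val : ℤ) < j.val := by exact_mod_cast hij
  have h3 : j ≠ 0 := by
    rintro rfl
    exact absurd hij (Fin.not_lt_zero i)
  rw [if_neg h3]
  have h4 : (0 : ℤ) ≤ if i = 0 then (m : ℤ) else 0 := by split_ifs <;> simp
  have h5 : (n : ℤ) - j.val + 0 < (n : ℤ) - i.val + if i = 0 then (m : ℤ) else 0 := by linarith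
  exact mul_lt_mul_of_pos_left h5 h1

section Thm

variable {k F : Type} [Field k] [Fintype k] [Field F] [IsAlgClosed F] (ι : k →+* F) {p : ℕ}
  [hp : Fact p.Prime] [CharP F p] (hk : Fintype.card k = p)
  (t : Fˣ →* ℂˣ) (ht : Function.Injective t)
  (s : Wt Unit (n + 1) → P Unit (n + 1)) (hs' : IsWeyl s)
  (D : SerreWeights k F (n + 1) t)

include ι hk ht hs' in
/-- **Equality at one Hodge type implies equality in its class modulo `p - 1`.** -/
theorem one_type (θ : Matrix.GeneralLinearGroup (Fin (n + 1)) k → ℂ)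
    (mult : Wt Unit (n + 1) → D.W → ℕ) (hmult : IsMult ι (p := p) kap t s D θ mult)
    (e : Wt Unit (n + 1) → ℤ) (he : Alt e)
    (hE : ∀ h, Dom h → ∀ r, 1 ≤ r → r ≤ n + 1 → shift e h () p r = shift e h () 1 r)
    (μ : D.W → ℕ) (hμ : ∀ h, Dom h → ∑ w, (mult h w : ℤ) * μ w ≤ e h) (a m : ℕ)
    (h1 : n * (ordGL k (n + 1) * (n + 1).factorial) ≤ m) (h2 : m ≤ p ^ a)
    (h3 : e (hty n p a m) = ∑ w, (mult (hty n p a m) w : ℤ) * μ w)
    (h : Wt Unit (n + 1)) (hh : Dom h) (b : ℤ)
    (hsum : ∑ i, h () i = ∑ i, hty n p a m () i + b * (p - 1)) :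
    e h = ∑ w, (mult h w : ℤ) * μ w := by
  classical
  set X : Wt Unit (n + 1) → ℤ := fun h => ∑ w, (mult h w : ℤ) * μ w with hX
  have hGE : Equations kap p (ext X) :=
    equations_of_bm ι (f := 1) (by rw [pow_one]; exact hk) one_ne_zero kap t s hs' D θ mult hmult
      (ext X) (ext_alt X) (fun w => ((μ w : ℕ) : ℤ)) (fun h hh => by
        rw [ext_dom X h hh]
        refine Finset.sum_congr rfl fun w _ => ?_
        rw [nsmul_eq_mul])
  have heE : Equations kap p e := equations_of_dom kap p e he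
    (fun h hh _ _ _ r h1 h2 => hE h hh r h1 h2)
  set Z : Wt Unit (n + 1) → ℤ := fun h => e h - ext X h with hZ
  have hZalt : Alt Z := by
    constructor
    · intro h σ π
      simp only [hZ]
      rw [he.perm h σ π, (ext_alt X).perm h σ π, smul_sub]
    · intro h σ i j hij hc
      simp only [hZ]
      rw [he.zero h σ i j hij hc, (ext_alt X).zero h σ i j hij hc, sub_zero]
  have hZE : Equations kap p Z := by
    intro σ σ' hσ r h1 h2 h
    have e1 := heE σ σ' hσ r h1 h2 h
    have e2 := hGE σ σ' hσ r h1 h2 h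
    unfold shift at e1 e2 ⊢
    simp only [hZ, Finset.sum_sub_distrib]
    rw [e1, e2]
  have hZpos : ∀ h, Dom h → 0 ≤ Z h := by
    intro h hh
    simp only [hZ]
    rw [ext_dom X h hh]
    exact sub_nonneg.mpr (hμ h hh)
  have hp1 : 1 ≤ p := hp.out.one_lt.le
  have hSol := toSol ι hk t ht s hs' Z hZalt hZE hZpos a
  have hM : ordW Unit (n + 1) = (n + 1).factorial := by
    unfold ordW
    rw [Fintype.card_fun, Fintype.card_unit, pow_one, Fintype.card_perm, Fintype.card_fin]
  have hN : 1 ≤ ordGL k (n + 1) := Nat.card_pos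
  have c0 : cf (ordW Unit (n + 1)) 0 ≠ 0 := by
    unfold cf
    simp
  have cM : cf (ordW Unit (n + 1)) (ordW Unit (n + 1)) ≠ 0 := by
    unfold cf
    simp
  have hz : Z (hty n p a m) = 0 := by
    simp only [hZ]
    rw [ext_dom X _ (hty_dom n p a m hp1), h3, sub_self]
  have hty_eq : hty n p a m = fun _ i => ((p ^ a : ℕ) : ℤ) * (ro n i + if i = 0 then (m : ℤ) else 0) := by
    funext u i
    simp only [hty, ro]
    push_cast
    rfl
  have hsumty : ∃ c : ℤ, ∑ i, hty n p a m () i =
      ((p ^ a : ℕ) : ℤ) * ∑ i, ro n i + m + c * (p - 1) := by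
    have e1 : ∑ i, hty n p a m () i = ((p ^ a : ℕ) : ℤ) * ∑ i, ro n i + ((p ^ a : ℕ) : ℤ) * m := by
      rw [hty_eq, ← Finset.mul_sum, Finset.sum_add_distrib, mul_add]
      simp
    obtain ⟨c, hc⟩ : ((p : ℤ) - 1) ∣ (p : ℤ) ^ a - 1 := by
      have h5 := sub_dvd_pow_sub_pow (p : ℤ) 1 a
      rwa [one_pow] at h5
    refine ⟨m * c, ?_⟩
    rw [e1]
    push_cast
    have : (p : ℤ) ^ a = 1 + (p - 1) * c := by linarith
    rw [this]
    ring
  obtain ⟨c, hc⟩ := hsumty
  have e4 := vanish hSol hN c0 cM m (by rw [hM]; exact h1) h2 (by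
    have : Z (fun _ i => ((p ^ a : ℕ) : ℤ) * (ro n i + if i = 0 then (m : ℤ) else 0)) = 0 := by
      rw [← hty_eq]
      exact hz
    exact this) (h ()) (c + b) (by
      rw [hsum, hc]
      ring)
  have e5 : Z h = 0 := e4
  simp only [hZ] at e5
  rw [ext_dom X h hh] at e5
  exact sub_eq_zero.mp e5

end Thm

end Pool.Agent.N886.BM
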