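import Mathlib

/-!
# Recurrences on a line, and the sum over a simplex of an alternating function
-/

open Finset

namespace Pool.Agent.N886.BM

/-- A solution of a linear recurrence with extreme coefficients `±1` which vanishes at `M`
consecutive places vanishes everywhere. -/
lemma line (M : ℕ) (c : ℕ → ℤ) (h0 : c 0 ≠ 0) (hM : c M ≠ 0)
    (g : ℤ → ℤ) (hrec : ∀ a : ℤ, ∑ j ∈ range (M + 1), c j * g (a + j) = 0) (a₀ : ℤ)
    (hz : ∀ j : ℕ, j < M → g (a₀ + j) = 0) : ∀ a, g a = 0 := by
  have fwd : ∀ j : ℕ, g (a₀ + j) = 0 := by
    intro j
    induction j using Nat.strong_induction_on with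
    | _ j ih =>
      by_cases hj : j < M
      · exact hz j hj
      · push Not at hj
        have h1 := hrec (a₀ + ((j - M : ℕ) : ℤ))
        rw [Finset.sum_range_succ, Finset.sum_eq_zero, zero_add] at h1
        · rcases mul_eq_zero.mp h1 with h2 | h2
          · exact absurd h2 hM
          · rw [← h2]
            congr 1
            have : ((j - M : ℕ) : ℤ) = j - M := by push_cast [Nat.cast_sub hj]; ring
            rw [this]
            ring
        · intro i hi
          rw [Finset.mem_range] at hi
          have h3 := ih (j - M + i) (by omega)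
          have : a₀ + ((j - M : ℕ) : ℤ) + (i : ℤ) = a₀ + ((j - M + i : ℕ) : ℤ) := by
            push_cast
            ring
          rw [this, h3, mul_zero]
  have bwd : ∀ j : ℕ, ∀ i : ℕ, g (a₀ - j + i) = 0 := by
    intro j
    induction j with
    | zero =>
      intro i
      simpa using fwd i
    | succ j ih =>
      have key : g (a₀ - ((j + 1 : ℕ) : ℤ)) = 0 := by
        have h1 := hrec (a₀ - ((j + 1 : ℕ) : ℤ))
        rw [Finset.sum_range_succ', Finset.sum_eq_zero, zero_add] at h1
        · rcases mul_eq_zero.mp h1 with h2 | h2
          · exact absurd h2 h0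
          · simpa using h2
        · intro i _
          have h3 := ih i
          have : a₀ - ((j + 1 : ℕ) : ℤ) + ((i + 1 : ℕ) : ℤ) = a₀ - j + i := by
            push_cast
            ring
          rw [this, h3, mul_zero]
      intro i
      rcases i with _ | i
      · simpa using key
      · have h3 := ih i
        have : a₀ - ((j + 1 : ℕ) : ℤ) + ((i + 1 : ℕ) : ℤ) = a₀ - j + i := by
          push_cast
          ring
        rw [this, h3]
  intro a
  rcases le_total a₀ a with h | h
  · have h1 := fwd (a - a₀).toNat
    rw [Int.toNat_of_nonneg (by omega)] at h1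
    simpa using h1
  · have h1 := bwd (a₀ - a).toNat 0
    rw [Int.toNat_of_nonneg (by omega)] at h1
    simpa using h1

/-- the weights `n, n - 1, ..., 0` -/
def ro (n : ℕ) : Fin (n + 1) → ℤ := fun i => n - i.val

/-- alternating integer valued functions -/
structure Al {n : ℕ} (Y : (Fin (n + 1) → ℤ) → ℤ) : Prop where
  swap : ∀ h i j, i ≠ j → Y (h ∘ Equiv.swap i j) = - Y h
  zero : ∀ h i j, i ≠ j → h i = h j → Y h = 0

/-- **The sum over a simplex of an alternating function**: the formula for the complete symmetric
functions as Weyl characters. -/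
lemma simplex {n : ℕ} (Y : (Fin (n + 1) → ℤ) → ℤ) (hY : Al Y) (m : ℕ) :
    ∑ v ∈ piAntidiag (univ : Finset (Fin (n + 1))) m, Y (fun i => ro n i + (v i : ℤ)) =
      Y (fun i => ro n i + if i = 0 then (m : ℤ) else 0) := by
  classical
  set A : ℕ → Finset (Fin (n + 1) → ℕ) := fun k =>
    (piAntidiag (univ : Finset (Fin (n + 1))) m).filter
      (fun v => ∀ i : Fin (n + 1), k < i.val → v i = 0) with hA
  set f : (Fin (n + 1) → ℕ) → ℤ := fun v => Y (fun i => ro n i + (v i : ℤ)) with hf
  have memA : ∀ k v, v ∈ A k ↔ ∑ i, v i = m ∧ ∀ i : Fin (n + 1), k < i.val → v i = 0 := by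
    intro k v
    simp only [hA, Finset.mem_filter, Finset.mem_piAntidiag]
    constructor
    · rintro ⟨⟨h1, _⟩, h2⟩
      exact ⟨h1, h2⟩
    · rintro ⟨h1, h2⟩
      exact ⟨⟨h1, fun i _ => Finset.mem_univ i⟩, h2⟩
  have step : ∀ k, k + 1 ≤ n → ∑ v ∈ A (k + 1), f v = ∑ v ∈ A k, f v := by
    intro k hk
    set a : Fin (n + 1) := ⟨k, by omega⟩ with ha
    set b : Fin (n + 1) := ⟨k + 1, by omega⟩ with hb
    have hab : a ≠ b := by
      intro h
      rw [Fin.ext_iff] at h
      simp [ha, hb] at h
    rw [← Finset.sum_filter_add_sum_filter_not (A (k + 1)) (fun v => v b = 0)]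
    have e1 : (A (k + 1)).filter (fun v => v b = 0) = A k := by
      ext v
      rw [Finset.mem_filter, memA, memA]
      constructor
      · rintro ⟨⟨h1, h2⟩, h3⟩
        refine ⟨h1, fun i hi => ?_⟩
        by_cases hib : i = b
        · rw [hib, h3]
        · apply h2
          have : i.val ≠ k + 1 := fun h => hib (Fin.ext h)
          omega
      · rintro ⟨h1, h2⟩
        exact ⟨⟨h1, fun i hi => h2 i (by omega)⟩, h2 b (by simp [hb])⟩
    have e2 : ∑ v ∈ (A (k + 1)).filter (fun v => ¬ v b = 0), f v = 0 := by
      set g : (Fin (n + 1) → ℕ) → (Fin (n + 1) → ℕ) := fun v =>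
        Function.update (Function.update v a (v b - 1)) b (v a + 1) with hg
      have gb : ∀ v, g v b = v a + 1 := by
        intro v
        simp [hg]
      have ga : ∀ v, g v a = v b - 1 := by
        intro v
        simp [hg, Function.update_of_ne hab]
      have go : ∀ v i, i ≠ a → i ≠ b → g v i = v i := by
        intro v i h1 h2
        simp [hg, Function.update_of_ne h1, Function.update_of_ne h2]
      have hval : ∀ v : Fin (n + 1) → ℕ, v b ≠ 0 →
          (fun i => ro n i + (g v i : ℤ)) = (fun i => ro n i + (v i : ℤ)) ∘ Equiv.swap a b := by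
        intro v hv
        funext i
        simp only [Function.comp_apply]
        by_cases h1 : i = a
        · rw [h1, Equiv.swap_apply_left, ga]
          have : ((v b - 1 : ℕ) : ℤ) = v b - 1 := by
            rw [Nat.cast_sub (Nat.one_le_iff_ne_zero.mpr hv)]
            simp
          rw [this]
          simp only [ro, ha, hb]
          push_cast
          ring
        · by_cases h2 : i = b
          · rw [h2, Equiv.swap_apply_right, gb]
            simp only [ro, ha, hb]
            push_cast
            ring
          · rw [Equiv.swap_apply_of_ne_of_ne h1 h2, go v i h1 h2]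
      have hsum : ∀ v : Fin (n + 1) → ℕ, v b ≠ 0 → ∑ i, g v i = ∑ i, v i := by
        intro v hv
        rw [← Finset.add_sum_erase univ (g v) (Finset.mem_univ a),
          ← Finset.add_sum_erase univ v (Finset.mem_univ a),
          ← Finset.add_sum_erase (univ.erase a) (g v)
            (Finset.mem_erase.mpr ⟨hab.symm, Finset.mem_univ b⟩),
          ← Finset.add_sum_erase (univ.erase a) v
            (Finset.mem_erase.mpr ⟨hab.symm, Finset.mem_univ b⟩), ga, gb]
        have : ∑ x ∈ (univ.erase a).erase b, g v x = ∑ x ∈ (univ.erase a).erase b, v x := by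
          refine Finset.sum_congr rfl fun i hi => ?_
          rw [Finset.mem_erase, Finset.mem_erase] at hi
          exact go v i hi.2.1 hi.1
        rw [this]
        omega
      refine Finset.sum_involution (fun v _ => g v) ?_ ?_ ?_ ?_
      · intro v hv
        rw [Finset.mem_filter] at hv
        simp only [hf]
        rw [hval v hv.2, hY.swap _ a b hab]
        ring
      · intro v hv hne hc
        rw [Finset.mem_filter] at hv
        apply hne
        have h1 : g v a = v a := by rw [hc]
        rw [ga] at h1
        have h2 := hv.2
        apply hY.zero _ a b hab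
        have h3 : (v b : ℤ) = v a + 1 := by omega
        rw [h3]
        simp only [ro, ha, hb]
        push_cast
        ring
      · intro v hv
        rw [Finset.mem_filter, memA] at hv
        rw [Finset.mem_filter, memA]
        refine ⟨⟨?_, ?_⟩, ?_⟩
        · rw [hsum v hv.2]
          exact hv.1.1
        · intro i hi
          have h1 : i ≠ a := by
            intro h
            rw [h] at hi
            simp [ha] at hi
          have h2 : i ≠ b := by
            intro h
            rw [h] at hi
            simp [hb] at hi
          rw [go v i h1 h2]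
          exact hv.1.2 i hi
        · rw [gb]
          omega
      · intro v hv
        rw [Finset.mem_filter] at hv
        have h2 := hv.2
        funext i
        by_cases h1 : i = a
        · rw [h1, ga, gb]
          omega
        · by_cases h3 : i = b
          · rw [h3, gb, ga]
            omega
          · rw [go _ i h1 h3, go _ i h1 h3]
    rw [e1, e2, add_zero]
  have all : ∀ k, k ≤ n → ∑ v ∈ A k, f v = ∑ v ∈ A 0, f v := by
    intro k
    induction k with
    | zero => intro _; rfl
    | succ k ih =>
      intro hk
      rw [step k hk, ih (by omega)]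
  have hn : A n = piAntidiag (univ : Finset (Fin (n + 1))) m := by
    ext v
    rw [memA, Finset.mem_piAntidiag]
    constructor
    · rintro ⟨h1, _⟩
      exact ⟨h1, fun i _ => Finset.mem_univ i⟩
    · rintro ⟨h1, _⟩
      exact ⟨h1, fun i hi => by have := i.2; omega⟩
  have hz : A 0 = {fun i => if i = 0 then m else 0} := by
    ext v
    rw [memA, Finset.mem_singleton]
    constructor
    · rintro ⟨h1, h2⟩
      have h3 : ∀ i : Fin (n + 1), i ≠ 0 → v i = 0 := by
        intro i hi
        exact h2 i (Nat.pos_of_ne_zero (fun h => hi (Fin.ext h)))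
      have h4 : ∑ i, v i = v 0 := Finset.sum_eq_single 0 (fun i _ hi => h3 i hi) (by simp)
      funext i
      by_cases hi : i = 0
      · rw [hi, if_pos rfl, ← h4, h1]
      · rw [if_neg hi, h3 i hi]
    · rintro rfl
      refine ⟨by simp, fun i hi => ?_⟩
      have h1 : i ≠ 0 := by
        rintro rfl
        simp at hi
      simp only [h1, if_false]
  rw [← hn, all n le_rfl, hz, Finset.sum_singleton]
  simp only [hf]
  congr 1
  funext i
  split_ifs <;> simp

end Pool.Agent.N886.BM
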